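import Pool.Agent.SKQ.Stmts

set_option autoImplicit false

namespace Pool.Agent.SKQ.H33

open Metric Set Filter Topology MeasureTheory
open scoped ENNReal

namespace Fmo

variable {m : ℕ}

/-- substitution along rays from a point of the cube -/
theorem ray_le {c x : Fin m → ℝ} {t s : ℝ} (hs : 0 < s) (hs1 : s ≤ 1)
    (hx : x ∈ closedBall c t) {H : (Fin m → ℝ) → ℝ} (hH : Continuous H) (hH0 : ∀ z, 0 ≤ H z) :
    ∫ z in closedBall c t, H (x + s • (z - x)) ≤ (s ^ m)⁻¹ * ∫ z in closedBall c t, H z := by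
  set Q := closedBall c t with hQ
  have hQm : MeasurableSet Q := isClosed_closedBall.measurableSet
  have hQc : IsCompact Q := isCompact_closedBall c t
  set Q' : Set (Fin m → ℝ) := {w | x + s⁻¹ • (w - x) ∈ Q} with hQ'
  have hcont : Continuous (fun w : Fin m → ℝ => x + s⁻¹ • (w - x)) := by fun_prop
  have hQ'm : MeasurableSet Q' := (isClosed_closedBall.preimage hcont).measurableSet
  have hQ'Q : Q' ⊆ Q := by
    intro w hw
    have h1 : x + s⁻¹ • (w - x) ∈ Q := hw
    have h2 := (convex_closedBall c t).add_smul_sub_mem hx h1 ⟨hs.le, hs1⟩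
    have h3 : x + s • (x + s⁻¹ • (w - x) - x) = w := by
      rw [add_sub_cancel_left, smul_smul, mul_inv_cancel₀ hs.ne', one_smul]
      abel
    rwa [h3] at h2
  set F : (Fin m → ℝ) → ℝ := indicator Q' H with hF
  have h1 : ∫ z in Q, H (x + s • (z - x)) = ∫ z, F (x + s • (z - x)) := by
    rw [← integral_indicator hQm]
    congr 1
    funext z
    have e : x + s⁻¹ • (x + s • (z - x) - x) = z := by
      rw [add_sub_cancel_left, smul_smul, inv_mul_cancel₀ hs.ne', one_smul]
      abel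
    by_cases hz : z ∈ Q
    · have hz' : x + s • (z - x) ∈ Q' := by
        show x + s⁻¹ • (x + s • (z - x) - x) ∈ Q
        rwa [e]
      rw [indicator_of_mem hz, hF, indicator_of_mem hz']
    · have hz' : x + s • (z - x) ∉ Q' := by
        intro h
        have h' : x + s⁻¹ • (x + s • (z - x) - x) ∈ Q := h
        rw [e] at h'
        exact hz h'
      rw [indicator_of_notMem hz, hF, indicator_of_notMem hz']
  have h2 : ∫ z, F (x + s • (z - x)) = (s ^ m)⁻¹ * ∫ w, F w := by
    have a1 : ∫ z, F (x + s • (z - x)) = ∫ u, F (x + s • u) :=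
      integral_sub_right_eq_self (fun u => F (x + s • u)) x
    have a2 : ∫ u, F (x + s • u) = |(s ^ Module.finrank ℝ (Fin m → ℝ))⁻¹| • ∫ w, F (x + w) :=
      Measure.integral_comp_smul volume (fun w => F (x + w)) s
    have a3 : ∫ w, F (x + w) = ∫ w, F w := integral_add_left_eq_self F x
    rw [a1, a2, a3, Module.finrank_fin_fun, abs_of_nonneg (by positivity), smul_eq_mul]
  have h3 : ∫ w, F w ≤ ∫ z in Q, H z := by
    rw [hF, integral_indicator hQ'm]
    exact setIntegral_mono_set (hH.continuousOn.integrableOn_compact hQc)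
      (Eventually.of_forall fun z => hH0 z) (Eventually.of_forall hQ'Q)
  rw [h1, h2]
  exact mul_le_mul_of_nonneg_left h3 (by positivity)

theorem vol {c : Fin m → ℝ} {t : ℝ} (ht : 0 < t) :
    (volume.real (closedBall c t)) = (2 * t) ^ m := by
  rw [measureReal_def, Real.volume_pi_closedBall c ht.le, Fintype.card_fin,
    ENNReal.toReal_ofReal (by positivity)]

theorem jensen {c : Fin m → ℝ} {t : ℝ} (ht : 0 < t) {h : (Fin m → ℝ) → ℝ} (hc : Continuous h)
    (h0 : ∀ z, 0 ≤ h z) (k : ℕ) :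
    (∫ z in closedBall c t, h z) ^ (k + 1) ≤
      ((2 * t) ^ m) ^ k * ∫ z in closedBall c t, h z ^ (k + 1) := by
  have hQc : IsCompact (closedBall c t) := isCompact_closedBall c t
  set v : ℝ := (2 * t) ^ m with hv
  have hv0 : 0 < v := by positivity
  have hvr := vol (c := c) ht
  have hj := (convexOn_pow (𝕜 := ℝ) (k + 1)).map_set_average_le (μ := volume)
    (t := closedBall c t) (f := h) (continuous_pow (k + 1)).continuousOn isClosed_Ici
    (by
      rw [Real.volume_pi_closedBall c ht.le]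
      have : 0 < (2 * t) ^ Fintype.card (Fin m) := by positivity
      simpa using this)
    hQc.measure_ne_top (Eventually.of_forall fun z => h0 z)
    (hc.continuousOn.integrableOn_compact hQc)
    (((continuous_pow (k + 1)).comp hc).continuousOn.integrableOn_compact hQc)
  rw [setAverage_eq, setAverage_eq, hvr, ← hv, smul_eq_mul, smul_eq_mul, mul_pow] at hj
  have h1 : (∫ z in closedBall c t, h z) ^ (k + 1) =
      v ^ (k + 1) * ((v⁻¹) ^ (k + 1) * (∫ z in closedBall c t, h z) ^ (k + 1)) := by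
    rw [← mul_assoc, ← mul_pow, mul_inv_cancel₀ hv0.ne', one_pow, one_mul]
  rw [h1]
  calc v ^ (k + 1) * ((v⁻¹) ^ (k + 1) * (∫ z in closedBall c t, h z) ^ (k + 1))
      ≤ v ^ (k + 1) * (v⁻¹ * ∫ z in closedBall c t, h z ^ (k + 1)) := by gcongr
    _ = v ^ k * ∫ z in closedBall c t, h z ^ (k + 1) := by
        rw [pow_succ]
        field_simp

/-- the difference of two values is bounded by the integral of the derivative along the segment -/
theorem seg {ψ : (Fin m → ℝ) → ℝ} (hψ : ContDiff ℝ 1 ψ) {c : Fin m → ℝ} {t : ℝ}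
    {x z : Fin m → ℝ} (hx : x ∈ closedBall c t) (hz : z ∈ closedBall c t) :
    |ψ z - ψ x| ≤ 2 * t * ∫ s in (0:ℝ)..1, ‖fderiv ℝ ψ (x + s • (z - x))‖ := by
  have hd : ∀ s : ℝ, HasDerivAt (fun s : ℝ => ψ (x + s • (z - x)))
      (fderiv ℝ ψ (x + s • (z - x)) (z - x)) s := by
    intro s
    have h1 : HasFDerivAt ψ (fderiv ℝ ψ (x + s • (z - x))) (x + s • (z - x)) :=
      (hψ.differentiable one_ne_zero _).hasFDerivAt
    have h2 : HasDerivAt (fun s : ℝ => x + s • (z - x)) (z - x) s := by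
      have := ((hasDerivAt_id s).smul_const (z - x)).const_add x
      simpa using this
    exact h1.comp_hasDerivAt s h2
  have hc1 : Continuous (fun s : ℝ => fderiv ℝ ψ (x + s • (z - x))) :=
    (hψ.continuous_fderiv one_ne_zero).comp (by fun_prop)
  have hc2 : Continuous (fun s : ℝ => fderiv ℝ ψ (x + s • (z - x)) (z - x)) :=
    hc1.clm_apply continuous_const
  have hftc : ∫ s in (0:ℝ)..1, fderiv ℝ ψ (x + s • (z - x)) (z - x) = ψ z - ψ x := by
    rw [intervalIntegral.integral_eq_sub_of_hasDerivAt (fun s _ => hd s)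
      (hc2.intervalIntegrable _ _)]
    simp
  rw [← hftc]
  have hzx : ‖z - x‖ ≤ 2 * t := by
    have h1 : ‖z - c‖ ≤ t := by simpa [dist_eq_norm] using hz
    have h2 : ‖x - c‖ ≤ t := by simpa [dist_eq_norm] using hx
    have h3 : z - x = (z - c) - (x - c) := by abel
    rw [h3]
    exact (norm_sub_le _ _).trans (by linarith)
  calc |∫ s in (0:ℝ)..1, fderiv ℝ ψ (x + s • (z - x)) (z - x)|
      ≤ ∫ s in (0:ℝ)..1, |fderiv ℝ ψ (x + s • (z - x)) (z - x)| :=
        intervalIntegral.abs_integral_le_integral_abs zero_le_one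
    _ ≤ ∫ s in (0:ℝ)..1, 2 * t * ‖fderiv ℝ ψ (x + s • (z - x))‖ := by
        refine intervalIntegral.integral_mono_on zero_le_one (hc2.abs.intervalIntegrable _ _)
          ((hc1.norm.const_mul (2 * t)).intervalIntegrable _ _) fun s _ => ?_
        rw [← Real.norm_eq_abs]
        refine (ContinuousLinearMap.le_opNorm _ _).trans ?_
        rw [mul_comm]
        gcongr
    _ = 2 * t * ∫ s in (0:ℝ)..1, ‖fderiv ℝ ψ (x + s • (z - x))‖ :=
        intervalIntegral.integral_const_mul _ _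

theorem main (hm : 1 ≤ m) {ψ : (Fin m → ℝ) → ℝ} (hψ : ContDiff ℝ 1 ψ) {c : Fin m → ℝ} {t : ℝ}
    (ht : 0 < t) {x : Fin m → ℝ} (hx : x ∈ closedBall c t) :
    |ψ x - ((2 * t) ^ m)⁻¹ * ∫ z in closedBall c t, ψ z| ^ (m + 1) ≤
      ((m + 1 : ℝ) ^ (m + 1) * (2 * t)) * ∫ z in closedBall c t, ‖fderiv ℝ ψ z‖ ^ (m + 1) := by
  set Q := closedBall c t with hQ
  have hQc : IsCompact Q := isCompact_closedBall c t
  set v : ℝ := (2 * t) ^ m with hv
  have hv0 : 0 < v := by positivity
  set G : (Fin m → ℝ) → ℝ := fun z => ‖fderiv ℝ ψ z‖ with hG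
  have hGc : Continuous G := (hψ.continuous_fderiv one_ne_zero).norm
  have hG0 : ∀ z, 0 ≤ G z := fun z => norm_nonneg _
  set I : ℝ := ∫ z in Q, G z ^ (m + 1) with hI
  have hI0 : 0 ≤ I := integral_nonneg fun z => by positivity
  have hψc : Continuous ψ := hψ.continuous
  -- the double integral
  have hjoint : Continuous (fun p : (Fin m → ℝ) × ℝ => G (x + p.2 • (p.1 - x))) :=
    hGc.comp (by fun_prop)
  set h : ℝ → ℝ := fun s => ∫ z in Q, G (x + s • (z - x)) with hh
  have hint : Integrable (fun p : (Fin m → ℝ) × ℝ => G (x + p.2 • (p.1 - x)))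
      ((volume.restrict Q).prod (volume.restrict (Ioc (0:ℝ) 1))) := by
    rw [Measure.prod_restrict]
    exact (hjoint.continuousOn.integrableOn_compact (hQc.prod isCompact_Icc)).mono_set
      (Set.prod_mono Subset.rfl Ioc_subset_Icc_self)
  have hswap : ∫ z in Q, ∫ s in (0:ℝ)..1, G (x + s • (z - x)) = ∫ s in (0:ℝ)..1, h s := by
    simp only [intervalIntegral.integral_of_le zero_le_one, hh]
    exact integral_integral_swap hint
  -- bound of `h`
  set A : ℝ := v ^ m * I with hA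
  have hA0 : 0 ≤ A := by positivity
  set p : ℝ := 1 / ((m:ℝ) + 1) with hp
  have hm1 : (0:ℝ) < (m:ℝ) + 1 := by positivity
  have hp0 : 0 < p := by positivity
  have hbound : ∀ s ∈ Ioc (0:ℝ) 1, h s ≤ A ^ p * s ^ (-(m * p)) := by
    intro s hs
    have hs0 : 0 < s := hs.1
    have e1 := jensen (c := c) ht (h := fun z => G (x + s • (z - x)))
      (hGc.comp (by fun_prop)) (fun z => hG0 _) m
    have e2 := ray_le (H := fun z => G z ^ (m + 1)) hs0 hs.2 hx (hGc.pow _)
      (fun z => by positivity)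
    have e3 : h s ^ (m + 1) ≤ A * (s ^ m)⁻¹ := by
      calc h s ^ (m + 1) ≤ v ^ m * ∫ z in Q, G (x + s • (z - x)) ^ (m + 1) := e1
        _ ≤ v ^ m * ((s ^ m)⁻¹ * I) := by gcongr
        _ = A * (s ^ m)⁻¹ := by rw [hA]; ring
    have hh0 : 0 ≤ h s := integral_nonneg fun z => hG0 _
    have e4 : h s = (h s ^ (m + 1)) ^ p := by
      rw [← Real.rpow_natCast, ← Real.rpow_mul hh0]
      have : ((m + 1 : ℕ) : ℝ) * p = 1 := by
        rw [hp]; push_cast; field_simp
      rw [this, Real.rpow_one]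
    rw [e4]
    calc (h s ^ (m + 1)) ^ p ≤ (A * (s ^ m)⁻¹) ^ p := by gcongr
      _ = A ^ p * s ^ (-(m * p)) := by
          rw [Real.mul_rpow hA0 (by positivity)]
          congr 1
          rw [← Real.rpow_natCast, ← Real.rpow_neg hs0.le, ← Real.rpow_mul hs0.le]
          congr 1
          ring
  have hexp : -1 < -((m:ℝ) * p) := by
    have : (m:ℝ) * p < 1 := by
      rw [hp, mul_one_div, div_lt_one hm1]
      linarith
    linarith
  have hhint : ∫ s in (0:ℝ)..1, h s ≤ A ^ p * ((m:ℝ) + 1) := by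
    have i1 : ∫ s in (0:ℝ)..1, A ^ p * s ^ (-((m:ℝ) * p)) = A ^ p * ((m:ℝ) + 1) := by
      rw [intervalIntegral.integral_const_mul, integral_rpow (Or.inl hexp)]
      congr 1
      have e5 : -((m:ℝ) * p) + 1 = p := by
        rw [hp]; field_simp; ring
      rw [e5, Real.one_rpow, Real.zero_rpow hp0.ne', sub_zero, hp, one_div_one_div]
    rw [← i1]
    refine intervalIntegral.integral_mono_on_of_le_Ioo zero_le_one ?_ ?_ ?_
    · rw [intervalIntegrable_iff_integrableOn_Ioc_of_le zero_le_one]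
      exact hint.integral_prod_right
    · exact (intervalIntegral.intervalIntegrable_rpow' hexp).const_mul _
    · intro s hs
      exact hbound s ⟨hs.1, hs.2.le⟩
  -- the mean value
  have hmean : v * |ψ x - v⁻¹ * ∫ z in Q, ψ z| ≤ 2 * t * (A ^ p * ((m:ℝ) + 1)) := by
    have e1 : v * |ψ x - v⁻¹ * ∫ z in Q, ψ z| = |∫ z in Q, (ψ z - ψ x)| := by
      have hs : ∫ z in Q, (ψ z - ψ x) = (∫ z in Q, ψ z) - v * ψ x := by
        rw [integral_sub (hψc.continuousOn.integrableOn_compact hQc)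
          (integrableOn_const hQc.measure_ne_top), setIntegral_const, vol ht, smul_eq_mul]
      rw [hs, ← abs_of_pos hv0, ← abs_mul, abs_of_pos hv0, ← abs_neg]
      congr 1
      field_simp
      ring
    rw [e1]
    calc |∫ z in Q, (ψ z - ψ x)| ≤ ∫ z in Q, |ψ z - ψ x| := abs_integral_le_integral_abs
      _ ≤ ∫ z in Q, 2 * t * ∫ s in (0:ℝ)..1, G (x + s • (z - x)) := by
          refine setIntegral_mono_on ?_ ?_ isClosed_closedBall.measurableSet fun z hz => ?_
          · exact ((hψc.sub continuous_const).abs).continuousOn.integrableOn_compact hQc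
          · have := hint.integral_prod_left
            simp only [intervalIntegral.integral_of_le zero_le_one]
            exact this.const_mul (2 * t)
          · exact seg hψ hx hz
      _ = 2 * t * ∫ z in Q, ∫ s in (0:ℝ)..1, G (x + s • (z - x)) := integral_const_mul _ _
      _ = 2 * t * ∫ s in (0:ℝ)..1, h s := by rw [hswap]
      _ ≤ 2 * t * (A ^ p * ((m:ℝ) + 1)) := by gcongr
  have hpow : (v * |ψ x - v⁻¹ * ∫ z in Q, ψ z|) ^ (m + 1) ≤
      (2 * t * (A ^ p * ((m:ℝ) + 1))) ^ (m + 1) := by gcongr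
  have hAp : (A ^ p) ^ (m + 1) = A := by
    rw [← Real.rpow_natCast, ← Real.rpow_mul hA0]
    have : p * ((m + 1 : ℕ) : ℝ) = 1 := by
      rw [hp]; push_cast; field_simp
    rw [this, Real.rpow_one]
  rw [mul_pow, mul_pow (2 * t), mul_pow (A ^ p), hAp, hA] at hpow
  have hv1 : v ^ (m + 1) = v ^ m * (2 * t) ^ m := by rw [pow_succ, ← hv]
  have hfin : v ^ (m + 1) * |ψ x - v⁻¹ * ∫ z in Q, ψ z| ^ (m + 1) ≤
      v ^ (m + 1) * (((m + 1 : ℝ) ^ (m + 1) * (2 * t)) * I) := by
    calc v ^ (m + 1) * |ψ x - v⁻¹ * ∫ z in Q, ψ z| ^ (m + 1)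
        ≤ (2 * t) ^ (m + 1) * (v ^ m * I * ((m:ℝ) + 1) ^ (m + 1)) := hpow
      _ = v ^ (m + 1) * (((m + 1 : ℝ) ^ (m + 1) * (2 * t)) * I) := by
          rw [hv1, pow_succ (2 * t)]
          ring
  exact le_of_mul_le_mul_left hfin (by positivity)

end Fmo

theorem fmo : FMOStmt := by
  intro m hm
  refine ⟨2 ^ (m + 1) * ((m + 1 : ℝ) ^ (m + 1) * 2), by positivity, ?_⟩
  intro ψ c t hψ ht x hx y hy
  set a : ℝ := ((2 * t) ^ m)⁻¹ * ∫ z in closedBall c t, ψ z with ha
  have h1 := Fmo.main hm hψ ht hx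
  have h2 := Fmo.main hm hψ ht hy
  rw [← ha] at h1 h2
  set B : ℝ := ((m + 1 : ℝ) ^ (m + 1) * (2 * t)) * ∫ z in closedBall c t, ‖fderiv ℝ ψ z‖ ^ (m + 1)
    with hB
  have h3 : |ψ x - ψ y| ≤ 2 * max |ψ x - a| |ψ y - a| := by
    have e : ψ x - ψ y = (ψ x - a) - (ψ y - a) := by ring
    rw [e]
    have := abs_sub (ψ x - a) (ψ y - a)
    have m1 := le_max_left |ψ x - a| |ψ y - a|
    have m2 := le_max_right |ψ x - a| |ψ y - a|
    linarith
  calc |ψ x - ψ y| ^ (m + 1) ≤ (2 * max |ψ x - a| |ψ y - a|) ^ (m + 1) := by gcongr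
    _ = 2 ^ (m + 1) * max |ψ x - a| |ψ y - a| ^ (m + 1) := mul_pow _ _ _
    _ ≤ 2 ^ (m + 1) * B := by
        gcongr
        rcases max_cases |ψ x - a| |ψ y - a| with ⟨h, _⟩ | ⟨h, _⟩ <;> rw [h]
        · exact h1
        · exact h2
    _ = _ := by rw [hB]; ring

end Pool.Agent.SKQ.H33
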