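import Pool.Agent.SKQ.Stmts

set_option autoImplicit false

namespace Pool.Agent.SKQ.H33

open Metric Set Filter Topology MeasureTheory
open scoped ENNReal RealInnerProductSpace
open Helper22QC

theorem exp_le_of {x : ℝ} (h0 : 0 ≤ x) (h1 : x ≤ 1 / 2) : Real.exp x ≤ 1 + 2 * x := by
  have h2 := Real.add_one_le_exp (-x)
  have h3 : Real.exp x * Real.exp (-x) = 1 := by rw [← Real.exp_add]; simp
  have h4 := Real.exp_pos x
  have h5 : Real.exp x * (1 - x) ≤ 1 := by nlinarith
  have h6 : 1 ≤ (1 + 2 * x) * (1 - x) := by nlinarith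
  nlinarith

theorem one_sub_le_exp_neg' (x : ℝ) : 1 - x ≤ Real.exp (-x) := by
  have := Real.add_one_le_exp (-x)
  linarith

theorem wf_symm {n : ℕ} (f : E n → E n) (c y : E n) : wf f c y = wf f y c := by
  unfold wf
  rw [norm_sub_rev (f y), norm_sub_rev y]

theorem sum_abs_sq_le {n : ℕ} (v : E n) : (∑ i, |v i|) ^ 2 ≤ n * ‖v‖ ^ 2 := by
  have h := sq_sum_le_card_mul_sum_sq (s := (Finset.univ : Finset (Fin n))) (f := fun i => |v i|)
  simp only [Finset.card_univ, Fintype.card_fin, sq_abs] at h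
  rw [EuclideanSpace.norm_sq_eq]
  simpa using h

theorem abs_coord_le {n : ℕ} (v : E n) (i : Fin n) : |v i| ≤ ‖v‖ := by
  have := PiLp.norm_apply_le v i
  rwa [Real.norm_eq_abs] at this

/-- the scaled images of the basis vectors -/
theorem norm_sq_comb {n : ℕ} (a : Fin n → E n) (v : E n) (d : ℝ)
    (h : ∀ i j, |⟪a i, a j⟫ - (if i = j then 1 else 0)| ≤ d) :
    |‖∑ i, v i • a i‖ ^ 2 - ‖v‖ ^ 2| ≤ d * (n * ‖v‖ ^ 2) := by
  have hd : 0 ≤ d ∨ n = 0 := by
    rcases Nat.eq_zero_or_pos n with h0 | h0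
    · exact Or.inr h0
    · exact Or.inl (le_trans (abs_nonneg _) (h ⟨0, h0⟩ ⟨0, h0⟩))
  have e1 : ‖∑ i, v i • a i‖ ^ 2 = ∑ i, ∑ j, v i * v j * ⟪a i, a j⟫ := by
    rw [← real_inner_self_eq_norm_sq, sum_inner]
    refine Finset.sum_congr rfl fun i _ => ?_
    rw [inner_sum]
    refine Finset.sum_congr rfl fun j _ => ?_
    rw [real_inner_smul_left, real_inner_smul_right]
    ring
  have e2 : ‖v‖ ^ 2 = ∑ i, ∑ j, v i * v j * (if i = j then 1 else 0) := by
    rw [EuclideanSpace.norm_sq_eq]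
    refine Finset.sum_congr rfl fun i _ => ?_
    simp [sq]
  rw [e1, e2, ← Finset.sum_sub_distrib]
  simp only [← Finset.sum_sub_distrib, ← mul_sub]
  calc |∑ i, ∑ j, v i * v j * (⟪a i, a j⟫ - (if i = j then 1 else 0))|
      ≤ ∑ i, ∑ j, |v i| * |v j| * d := by
        refine (Finset.abs_sum_le_sum_abs _ _).trans (Finset.sum_le_sum fun i _ => ?_)
        refine (Finset.abs_sum_le_sum_abs _ _).trans (Finset.sum_le_sum fun j _ => ?_)
        rw [abs_mul, abs_mul]
        exact mul_le_mul_of_nonneg_left (h i j) (by positivity)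
    _ = d * (∑ i, |v i|) ^ 2 := by
        rw [sq, Finset.sum_mul_sum, Finset.mul_sum]
        refine Finset.sum_congr rfl fun i _ => ?_
        rw [Finset.mul_sum]
        refine Finset.sum_congr rfl fun j _ => ?_
        ring
    _ ≤ _ := by
        rw [← e2]
        rcases hd with hd | hd
        · exact mul_le_mul_of_nonneg_left (sum_abs_sq_le v) hd
        · subst hd
          simp

theorem nis : NISStmt := by
  intro n κ hn hκ hκ3
  have hn' : (1:ℝ) ≤ n := by exact_mod_cast hn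
  set δ : ℝ := κ ^ 2 / (24 * n) with hδ
  have hδ0 : 0 < δ := by positivity
  have hδκ : 24 * n * δ = κ ^ 2 := by rw [hδ]; field_simp
  have hδ1 : δ ≤ 1 / 200 := by
    have h1 : δ ≤ κ ^ 2 / 24 := by
      rw [hδ]
      exact div_le_div_of_nonneg_left (sq_nonneg κ) (by norm_num) (by linarith)
    nlinarith
  have hδκ6 : 6 * n * δ ≤ κ / 2 := by nlinarith
  refine ⟨δ / 10, δ / 12, by positivity, by linarith, by positivity, ?_⟩
  intro f hinj hw
  set θ := δ / 10 with hθ
  set η := δ / 12 with hη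
  set e : E n := EuclideanSpace.single ⟨0, hn⟩ 1 with he
  have hen : ‖e‖ = 1 := by simp [he]
  have h0b : (0 : E n) ∈ closedBall (0 : E n) 1 := by simp
  have heb : e ∈ closedBall (0 : E n) 1 := by simp [hen]
  have hneb : -e ∈ closedBall (0 : E n) 1 := by simp [hen]
  have he0 : e ≠ 0 := by
    intro h
    rw [h, norm_zero] at hen
    exact zero_ne_one hen
  set m : ℝ := ‖f e - f 0‖ with hm
  have hm0 : 0 < m := by
    rw [hm, norm_pos_iff, sub_ne_zero]
    intro h
    exact he0 (hinj heb h0b h)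
  have hwm : wf f 0 e = Real.log m := by
    unfold wf
    rw [sub_zero, hen, Real.log_one, sub_zero]
  have hθ1 : θ ≤ 1 := by linarith
  -- far pairs
  have hfar : ∀ y ∈ closedBall (0 : E n) 1, ∀ z ∈ closedBall (0 : E n) 1, θ ≤ ‖y - z‖ →
      |wf f z y - Real.log m| ≤ 3 * η := by
    intro y hy z hz hyz
    obtain ⟨q, hqb, hq1, hqz⟩ : ∃ q ∈ closedBall (0 : E n) 1, ‖q‖ = 1 ∧ θ ≤ ‖q - z‖ := by
      have h2 : 2 ≤ ‖e - z‖ + ‖-e - z‖ := by
        have h3 : ‖(e - z) - (-e - z)‖ ≤ ‖e - z‖ + ‖-e - z‖ := norm_sub_le _ _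
        have h4 : (e - z) - (-e - z) = (2:ℝ) • e := by
          rw [two_smul]; abel
        rw [h4, norm_smul, hen] at h3
        simpa using h3
      by_cases h5 : 1 ≤ ‖e - z‖
      · exact ⟨e, heb, hen, by linarith⟩
      · exact ⟨-e, hneb, by rw [norm_neg, hen], by linarith⟩
    have s1 := hw z hz y hy q hqb hyz hqz
    have s2 := hw q hqb z hz 0 h0b (by rw [norm_sub_rev]; exact hqz)
      (by rw [zero_sub, norm_neg, hq1]; exact hθ1)
    have s3 := hw 0 h0b q hqb e heb (by rw [sub_zero, hq1]; exact hθ1)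
      (by rw [sub_zero, hen]; exact hθ1)
    rw [wf_symm f q z, wf_symm f q 0] at s2
    rw [hwm] at s3
    rw [abs_le] at *
    constructor <;> linarith [s1.1, s1.2, s2.1, s2.2, s3.1, s3.2]
  have hfar2 : ∀ y ∈ closedBall (0 : E n) 1, ∀ z ∈ closedBall (0 : E n) 1, θ ≤ ‖y - z‖ →
      (1 - δ / 4) * (m * ‖y - z‖) ≤ ‖f y - f z‖ ∧ ‖f y - f z‖ ≤ (1 + δ / 2) * (m * ‖y - z‖) := by
    intro y hy z hz hyz
    have h1 := hfar y hy z hz hyz
    have hθ0 : 0 < θ := by positivity
    have hyz0 : 0 < ‖y - z‖ := lt_of_lt_of_le hθ0 hyz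
    have hne : y ≠ z := by
      rintro rfl
      simp at hyz0
    have hf0 : 0 < ‖f y - f z‖ := by
      rw [norm_pos_iff, sub_ne_zero]
      intro h
      exact hne (hinj hy hz h)
    set ρ := wf f z y - Real.log m with hρ
    have h2 : ‖f y - f z‖ = m * ‖y - z‖ * Real.exp ρ := by
      rw [hρ]
      unfold wf
      rw [Real.exp_sub, Real.exp_sub, Real.exp_log hf0, Real.exp_log hyz0, Real.exp_log hm0]
      field_simp
    rw [abs_le] at h1
    have h3 : Real.exp ρ ≤ 1 + δ / 2 := by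
      calc Real.exp ρ ≤ Real.exp (3 * η) := Real.exp_le_exp.2 h1.2
        _ ≤ 1 + 2 * (3 * η) := exp_le_of (by positivity) (by rw [hη]; linarith)
        _ = 1 + δ / 2 := by rw [hη]; ring
    have h4 : 1 - δ / 4 ≤ Real.exp ρ := by
      calc 1 - δ / 4 = 1 - 3 * η := by rw [hη]; ring
        _ ≤ Real.exp (-(3 * η)) := one_sub_le_exp_neg' _
        _ ≤ Real.exp ρ := Real.exp_le_exp.2 h1.1
    have h5 : 0 < m * ‖y - z‖ := by positivity
    rw [h2]
    constructor <;> nlinarith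
  -- all pairs
  have hall : ∀ y ∈ closedBall (0 : E n) 1, ∀ z ∈ closedBall (0 : E n) 1,
      |‖f y - f z‖ - m * ‖y - z‖| ≤ δ * m := by
    intro y hy z hz
    have hy1 : ‖y‖ ≤ 1 := by simpa using hy
    have hz1 : ‖z‖ ≤ 1 := by simpa using hz
    by_cases hyz : θ ≤ ‖y - z‖
    · obtain ⟨h1, h2⟩ := hfar2 y hy z hz hyz
      have h3 : ‖y - z‖ ≤ 2 := (norm_sub_le _ _).trans (by linarith)
      have h4 : m * ‖y - z‖ ≤ m * 2 := by gcongr
      rw [abs_le]
      constructor <;> nlinarith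
    · push Not at hyz
      obtain ⟨u, hu1, hyu⟩ : ∃ u : E n, ‖u‖ = 1 ∧ y = ‖y‖ • u := by
        by_cases hy0 : y = 0
        · exact ⟨e, hen, by rw [hy0, norm_zero, zero_smul]⟩
        · refine ⟨‖y‖⁻¹ • y, ?_, ?_⟩
          · rw [norm_smul, norm_inv, norm_norm, inv_mul_cancel₀ (norm_ne_zero_iff.2 hy0)]
          · rw [smul_smul, mul_inv_cancel₀ (norm_ne_zero_iff.2 hy0), one_smul]
      set p : E n := (‖y‖ - 2 * θ) • u with hp
      have hpb : p ∈ closedBall (0 : E n) 1 := by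
        rw [mem_closedBall, dist_zero_right, hp, norm_smul, hu1, mul_one, Real.norm_eq_abs, abs_le]
        have := norm_nonneg y
        constructor <;> linarith
      have hyp : ‖y - p‖ = 2 * θ := by
        have : y - p = (2 * θ) • u := by
          rw [hp]
          nth_rewrite 1 [hyu]
          rw [← sub_smul]
          congr 1
          ring
        rw [this, norm_smul, hu1, mul_one, Real.norm_eq_abs, abs_of_nonneg (by positivity)]
      have hpz1 : θ ≤ ‖p - z‖ := by
        have h1 : ‖y - p‖ ≤ ‖y - z‖ + ‖p - z‖ := by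
          have : y - p = (y - z) - (p - z) := by abel
          rw [this]
          exact norm_sub_le _ _
        linarith
      have hpz2 : ‖p - z‖ ≤ 3 * θ := by
        have h1 : ‖p - z‖ ≤ ‖y - z‖ + ‖y - p‖ := by
          have : p - z = (y - z) - (y - p) := by abel
          rw [this]
          exact norm_sub_le _ _
        linarith
      have h1 := (hfar2 y hy p hpb (by rw [hyp]; linarith [show (0:ℝ) < θ by positivity])).2
      have h2 := (hfar2 p hpb z hz hpz1).2
      have h3 : ‖f y - f z‖ ≤ ‖f y - f p‖ + ‖f p - f z‖ := norm_sub_le_norm_sub_add_norm_sub _ _ _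
      have h4 : ‖f y - f z‖ ≤ δ * m := by
        rw [hyp] at h1
        have h5 : (1 + δ / 2) * (m * ‖p - z‖) ≤ (1 + δ / 2) * (m * (3 * θ)) := by gcongr
        have h6 : (1 + δ / 2) * (m * (2 * θ)) + (1 + δ / 2) * (m * (3 * θ)) ≤ δ * m := by
          have : (1 + δ / 2) * (m * (2 * θ)) + (1 + δ / 2) * (m * (3 * θ)) =
              (δ * m) * ((1 + δ / 2) / 2) := by rw [hθ]; ring
          rw [this]
          have h7 : (1 + δ / 2) / 2 ≤ 1 := by linarith
          have h8 : 0 ≤ δ * m := by positivity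
          nlinarith
        linarith
      have h5 : m * ‖y - z‖ ≤ δ * m := by
        have : m * ‖y - z‖ ≤ m * θ := by gcongr
        have h9 : m * θ ≤ δ * m := by rw [hθ]; nlinarith
        linarith
      have h6 : 0 ≤ m * ‖y - z‖ := by positivity
      have h7 : 0 ≤ ‖f y - f z‖ := norm_nonneg _
      rw [abs_le]
      constructor <;> linarith
  -- the rescaled map
  set g : E n → E n := fun y => m⁻¹ • (f y - f 0) with hg
  have hgyz : ∀ y ∈ closedBall (0 : E n) 1, ∀ z ∈ closedBall (0 : E n) 1,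
      |‖g y - g z‖ - ‖y - z‖| ≤ δ := by
    intro y hy z hz
    have h1 := hall y hy z hz
    have h2 : g y - g z = m⁻¹ • (f y - f z) := by
      simp only [hg]
      rw [← smul_sub]
      congr 1
      abel
    have h3 : ‖g y - g z‖ = m⁻¹ * ‖f y - f z‖ := by
      rw [h2, norm_smul, norm_inv, Real.norm_eq_abs, abs_of_pos hm0]
    have h4 : ‖g y - g z‖ - ‖y - z‖ = m⁻¹ * (‖f y - f z‖ - m * ‖y - z‖) := by
      rw [h3]
      field_simp
    rw [h4, abs_mul, abs_inv, abs_of_pos hm0]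
    calc m⁻¹ * |‖f y - f z‖ - m * ‖y - z‖| ≤ m⁻¹ * (δ * m) := by gcongr
      _ = δ := by field_simp
  have hg0 : g 0 = 0 := by simp [hg]
  have hsq : ∀ y ∈ closedBall (0 : E n) 1, ∀ z ∈ closedBall (0 : E n) 1,
      |‖g y - g z‖ ^ 2 - ‖y - z‖ ^ 2| ≤ δ * (2 * ‖y - z‖ + δ) := by
    intro y hy z hz
    have h1 := hgyz y hy z hz
    have h2 : ‖g y - g z‖ ^ 2 - ‖y - z‖ ^ 2 =
        (‖g y - g z‖ - ‖y - z‖) * (‖g y - g z‖ + ‖y - z‖) := by ring
    rw [h2, abs_mul]
    have h3 : |‖g y - g z‖ + ‖y - z‖| ≤ 2 * ‖y - z‖ + δ := by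
      rw [abs_of_nonneg (by positivity)]
      linarith [(abs_le.1 h1).2]
    exact mul_le_mul h1 h3 (abs_nonneg _) hδ0.le
  have hin : ∀ y ∈ closedBall (0 : E n) 1, ∀ z ∈ closedBall (0 : E n) 1,
      |⟪g y, g z⟫ - ⟪y, z⟫| ≤ 6 * δ := by
    intro y hy z hz
    have hy1 : ‖y‖ ≤ 1 := by simpa using hy
    have hz1 : ‖z‖ ≤ 1 := by simpa using hz
    have a1 := hsq y hy 0 h0b
    have a2 := hsq z hz 0 h0b
    have a3 := hsq y hy z hz
    rw [hg0, sub_zero, sub_zero] at a1 a2
    have e1 := norm_sub_sq_real (g y) (g z)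
    have e2 := norm_sub_sq_real y z
    have h3 : ‖y - z‖ ≤ 2 := (norm_sub_le _ _).trans (by linarith)
    have b1 : δ * (2 * ‖y‖ + δ) ≤ δ * 3 := by gcongr; linarith
    have b2 : δ * (2 * ‖z‖ + δ) ≤ δ * 3 := by gcongr; linarith
    have b3 : δ * (2 * ‖y - z‖ + δ) ≤ δ * 5 := by gcongr; linarith
    rw [abs_le] at *
    constructor <;> nlinarith [a1.1, a1.2, a2.1, a2.2, a3.1, a3.2]
  -- the linear map
  set a : Fin n → E n := fun i => g (EuclideanSpace.single i 1) with ha
  have hbasis : ∀ i : Fin n, (EuclideanSpace.single i (1:ℝ) : E n) ∈ closedBall (0 : E n) 1 := by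
    intro i
    simp
  have haij : ∀ i j, |⟪a i, a j⟫ - (if i = j then 1 else 0)| ≤ 6 * δ := by
    intro i j
    have h1 := hin _ (hbasis i) _ (hbasis j)
    have h2 : ⟪(EuclideanSpace.single i (1:ℝ) : E n), EuclideanSpace.single j (1:ℝ)⟫ =
        (if i = j then 1 else 0) := by
      rw [EuclideanSpace.inner_single_left]
      simp [EuclideanSpace.single_apply]
    rwa [h2] at h1
  let L₀ : E n →ₗ[ℝ] E n :=
    { toFun := fun v => m • ∑ i, v i • a i
      map_add' := by
        intro v w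
        simp [add_smul, Finset.sum_add_distrib, smul_add]
      map_smul' := by
        intro t v
        have h1 : ∑ i, (t • v) i • a i = t • ∑ i, v i • a i := by
          rw [Finset.smul_sum]
          refine Finset.sum_congr rfl fun i _ => ?_
          rw [PiLp.smul_apply, smul_eq_mul, mul_smul]
        rw [RingHom.id_apply, h1, smul_comm t m] }
  have hL₀ : ∀ v, L₀ v = m • ∑ i, v i • a i := fun v => rfl
  refine ⟨LinearMap.toContinuousLinearMap L₀, m, hm0, fun v => ?_, fun y hy => ?_⟩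
  · have h1 := norm_sq_comb a v (6 * δ) haij
    have h2 : ‖(LinearMap.toContinuousLinearMap L₀) v‖ = m * ‖∑ i, v i • a i‖ := by
      rw [LinearMap.coe_toContinuousLinearMap', hL₀, norm_smul, Real.norm_eq_abs,
        abs_of_pos hm0]
    rw [h2]
    set N := ‖∑ i, v i • a i‖ with hN
    have hN0 : 0 ≤ N := norm_nonneg _
    have hv0 : 0 ≤ ‖v‖ := norm_nonneg _
    have h3 : 6 * δ * (n * ‖v‖ ^ 2) ≤ κ / 2 * ‖v‖ ^ 2 := by
      have : 6 * δ * (n * ‖v‖ ^ 2) = (6 * n * δ) * ‖v‖ ^ 2 := by ring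
      rw [this]
      gcongr
    rw [abs_le] at h1
    have h4 : (1 - κ) * ‖v‖ ≤ N := by
      refine le_of_sq_le_sq ?_ hN0
      have : ((1 - κ) * ‖v‖) ^ 2 = (1 - κ) ^ 2 * ‖v‖ ^ 2 := by ring
      rw [this]
      nlinarith [sq_nonneg ‖v‖]
    have h5 : N ≤ (1 + κ) * ‖v‖ := by
      refine le_of_sq_le_sq ?_ (by positivity)
      have : ((1 + κ) * ‖v‖) ^ 2 = (1 + κ) ^ 2 * ‖v‖ ^ 2 := by ring
      rw [this]
      nlinarith [sq_nonneg ‖v‖]
    constructor
    · calc (1 - κ) * m * ‖v‖ = m * ((1 - κ) * ‖v‖) := by ring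
        _ ≤ m * N := by gcongr
    · calc m * N ≤ m * ((1 + κ) * ‖v‖) := by gcongr
        _ = (1 + κ) * m * ‖v‖ := by ring
  · have hy1 : ‖y‖ ≤ 1 := by simpa using hy
    have e1 : f y - f 0 = m • g y := by
      simp only [hg]
      rw [smul_smul, mul_inv_cancel₀ hm0.ne', one_smul]
    rw [LinearMap.coe_toContinuousLinearMap', hL₀, e1, ← smul_sub, norm_smul, Real.norm_eq_abs,
      abs_of_pos hm0, mul_comm κ m]
    refine mul_le_mul_of_nonneg_left ?_ hm0.le
    refine le_of_sq_le_sq ?_ hκ.le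
    have h1 := norm_sq_comb a y (6 * δ) haij
    have e2 := norm_sub_sq_real (g y) (∑ i, y i • a i)
    have e3 : ⟪g y, ∑ i, y i • a i⟫ = ∑ i, y i * ⟪g y, a i⟫ := by
      rw [inner_sum]
      refine Finset.sum_congr rfl fun i _ => ?_
      rw [real_inner_smul_right]
    have h2 : |∑ i, y i * ⟪g y, a i⟫ - ‖y‖ ^ 2| ≤ 6 * δ * n := by
      have e4 : ‖y‖ ^ 2 = ∑ i, y i * y i := by
        rw [EuclideanSpace.norm_sq_eq]
        refine Finset.sum_congr rfl fun i _ => ?_
        rw [Real.norm_eq_abs, sq_abs, sq]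
      rw [e4, ← Finset.sum_sub_distrib]
      simp only [← mul_sub]
      calc |∑ i, y i * (⟪g y, a i⟫ - y i)| ≤ ∑ i : Fin n, 6 * δ := by
            refine (Finset.abs_sum_le_sum_abs _ _).trans (Finset.sum_le_sum fun i _ => ?_)
            rw [abs_mul]
            have h3 := hin y hy _ (hbasis i)
            have h4 : ⟪y, (EuclideanSpace.single i (1:ℝ) : E n)⟫ = y i := by
              rw [EuclideanSpace.inner_single_right]
              simp
            rw [h4] at h3
            calc |y i| * |⟪g y, a i⟫ - y i| ≤ 1 * (6 * δ) := by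
                  refine mul_le_mul ((abs_coord_le y i).trans hy1) h3 (abs_nonneg _) zero_le_one
              _ = 6 * δ := one_mul _
        _ = 6 * δ * n := by simp; ring
    have h5 := hin y hy y hy
    rw [real_inner_self_eq_norm_sq, real_inner_self_eq_norm_sq] at h5
    have h6 : ‖y‖ ^ 2 ≤ 1 := by
      have := norm_nonneg y
      nlinarith
    have h7 : 6 * δ * (n * ‖y‖ ^ 2) ≤ 6 * δ * n := by
      have : 6 * δ * (n * ‖y‖ ^ 2) = 6 * δ * n * ‖y‖ ^ 2 := by ring
      rw [this]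
      have h8 : 0 ≤ 6 * δ * n := by positivity
      nlinarith
    rw [e2, e3]
    rw [abs_le] at h1 h2 h5
    have h9 : 6 * δ ≤ 6 * δ * n := by nlinarith
    nlinarith [h1.2, h2.1, h5.2]

end Pool.Agent.SKQ.H33
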